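import Mathlib

/-!
# Finite abelian groups whose subgroups are all fixed-point subgroups

A finite group `G` has the property (F) if every subgroup of `G` is the subgroup of the fixed points of an
automorphism of `G`. For `H = 1` this requires an automorphism without nontrivial fixed points. It is proved that
for finite abelian groups the case `H = 1` is enough: a finite abelian group has (F) if and only if it has a
fixed-point-free automorphism. So a finite abelian group, written as a product of cyclic groups of prime power orders,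
has (F) if and only if for no `k ≥ 1` exactly one of the factors has the order `2 ^ k`.

Proof. Let `σ` be a fixed-point-free automorphism of `G` (written additively) and `R = End G`. Then `1 = σ - (σ - 1)`
is a difference of two units of the finite ring `R`. In a finite ring with this property EVERY element is a
difference of two units (`two_all`): modulo the radical the ring is a product of matrix rings over finite fields, none
of which is `M_1(𝔽_2)`, and in each of them the elements are differences of two units. Now let `H` be a subgroup. By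
duality `G / H` embeds into `G`, so `H` is the kernel of some `A ∈ R`. With `A = u - v` the automorphism `v⁻¹ u` has
the fixed points `{x | u x = v x} = ker A = H`.
-/

set_option autoImplicit false

namespace Pool.Agent.Results.MP_9085a3_al.AbelianGroups

/-- Property (F): every subgroup is the subgroup of the fixed points of an automorphism. -/
def PropertyF (G : Type) [Group G] : Prop :=
  ∀ H : Subgroup G, ∃ α : MulAut G, ∀ g : G, g ∈ H ↔ α g = g

/-- `x` is a difference of two units -/
def Two {R : Type*} [Ring R] (x : R) : Prop := ∃ u v : R, IsUnit u ∧ IsUnit v ∧ x = u - v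

theorem Two.map {R S : Type*} [Ring R] [Ring S] (f : R →+* S) {x : R} (h : Two x) : Two (f x) := by
  obtain ⟨u, v, hu, hv, rfl⟩ := h
  exact ⟨f u, f v, hu.map f, hv.map f, map_sub f u v⟩

theorem two_pi {ι : Type*} {R : ι → Type*} [∀ i, Ring (R i)] (x : ∀ i, R i) (h : ∀ i, Two (x i)) : Two x := by
  choose u v hu hv hx using h
  exact ⟨u, v, Pi.isUnit_iff.2 hu, Pi.isUnit_iff.2 hv, funext hx⟩

theorem isUnit_lift {R : Type*} [Ring R] [IsArtinianRing R] {u : R}
    (h : IsUnit (Ideal.Quotient.mk (Ring.jacobson R) u)) : IsUnit u := by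
  have hnil : ∀ j : R, j ∈ Ring.jacobson R → IsUnit (1 + j) := by
    intro j hj
    obtain ⟨n, hn⟩ := IsSemiprimaryRing.isNilpotent (R := R)
    have : IsNilpotent j := ⟨n, by
      have h1 : j ^ n ∈ (Ring.jacobson R) ^ n := Ideal.pow_mem_pow hj n
      rw [hn] at h1
      exact h1⟩
    exact this.isUnit_one_add
  obtain ⟨b', hb1, hb2⟩ := isUnit_iff_exists.1 h
  obtain ⟨b, rfl⟩ := Ideal.Quotient.mk_surjective b'
  have h1 : IsUnit (u * b) := by
    have : u * b - 1 ∈ Ring.jacobson R := by
      rw [← Ideal.Quotient.eq_zero_iff_mem, map_sub, map_mul, map_one, hb1, sub_self]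
    have := hnil _ this
    rwa [add_sub_cancel] at this
  have h2 : IsUnit (b * u) := by
    have : b * u - 1 ∈ Ring.jacobson R := by
      rw [← Ideal.Quotient.eq_zero_iff_mem, map_sub, map_mul, map_one, hb2, sub_self]
    have := hnil _ this
    rwa [add_sub_cancel] at this
  obtain ⟨c, hc, _⟩ := isUnit_iff_exists.1 h1
  obtain ⟨d, _, hd⟩ := isUnit_iff_exists.1 h2
  rw [isUnit_iff_exists_and_exists]
  exact ⟨⟨b * c, by rw [← mul_assoc]; exact hc⟩, ⟨d * b, by rw [mul_assoc]; exact hd⟩⟩

theorem two_lift {R : Type*} [Ring R] [IsArtinianRing R] {x : R}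
    (h : Two (Ideal.Quotient.mk (Ring.jacobson R) x)) : Two x := by
  obtain ⟨u', v', hu, hv, hx⟩ := h
  obtain ⟨v, rfl⟩ := Ideal.Quotient.mk_surjective v'
  refine ⟨x + v, v, isUnit_lift ?_, isUnit_lift hv, by abel⟩
  rw [map_add, hx, sub_add_cancel]
  exact hu

section field

variable {K : Type*} [Field K]

/-- two endomorphisms with the same kernel differ by an automorphism -/
theorem exists_beta {V : Type*} [AddCommGroup V] [Module K V] [FiniteDimensional K V]
    (A B : V →ₗ[K] V) (h : LinearMap.ker B = LinearMap.ker A) : ∃ β : V ≃ₗ[K] V, ∀ x, β (B x) = A x := by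
  let r : LinearMap.range B ≃ₗ[K] LinearMap.range A :=
    B.quotKerEquivRange.symm ≪≫ₗ Submodule.quotEquivOfEq _ _ h ≪≫ₗ A.quotKerEquivRange
  have hr : ∀ x, r ⟨B x, LinearMap.mem_range_self B x⟩ = ⟨A x, LinearMap.mem_range_self A x⟩ := by
    intro x
    have h1 : B.quotKerEquivRange.symm ⟨B x, LinearMap.mem_range_self B x⟩ =
        Submodule.Quotient.mk x := by
      rw [LinearEquiv.symm_apply_eq]
      rfl
    show A.quotKerEquivRange (Submodule.quotEquivOfEq _ _ h (B.quotKerEquivRange.symm _)) = _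
    rw [h1]
    rfl
  obtain ⟨C1, h1⟩ := Submodule.exists_isCompl (LinearMap.range B)
  obtain ⟨C2, h2⟩ := Submodule.exists_isCompl (LinearMap.range A)
  have hf : Module.finrank K C1 = Module.finrank K C2 := by
    have e1 := Submodule.finrank_add_eq_of_isCompl h1
    have e2 := Submodule.finrank_add_eq_of_isCompl h2
    have e3 := r.finrank_eq
    omega
  let c : C1 ≃ₗ[K] C2 := LinearEquiv.ofFinrankEq _ _ hf
  refine ⟨(Submodule.prodEquivOfIsCompl _ _ h1).symm ≪≫ₗ (r.prodCongr c) ≪≫ₗ
    Submodule.prodEquivOfIsCompl _ _ h2, fun x => ?_⟩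
  have h3 : (Submodule.prodEquivOfIsCompl _ _ h1).symm (B x) = (⟨B x, LinearMap.mem_range_self B x⟩, 0) :=
    Submodule.prodEquivOfIsCompl_symm_apply_left _ _ h1 ⟨B x, LinearMap.mem_range_self B x⟩
  simp only [LinearEquiv.trans_apply]
  rw [h3]
  show Submodule.prodEquivOfIsCompl _ _ h2 (r _, c 0) = A x
  rw [hr, map_zero]
  simp

/-- the condition for a space `V`: every subspace is a fixed space -/
def FixAll (K : Type*) [Field K] (V : Type*) [AddCommGroup V] [Module K V] : Prop :=
  ∀ W : Submodule K V, ∃ α : V ≃ₗ[K] V, ∀ x, x ∈ W ↔ α x = x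

theorem two_of_fix {V : Type*} [AddCommGroup V] [Module K V] [FiniteDimensional K V] (h : FixAll K V)
    (A : Module.End K V) : Two A := by
  obtain ⟨α, hα⟩ := h (LinearMap.ker A)
  obtain ⟨β, hβ⟩ := exists_beta A ((α : V →ₗ[K] V) - LinearMap.id) (by
    ext x
    rw [LinearMap.mem_ker, hα]
    simp [sub_eq_zero])
  refine ⟨(α.trans β : V ≃ₗ[K] V), (β : V →ₗ[K] V), ?_, ?_, ?_⟩
  · exact (Module.End.isUnit_iff _).2 (α.trans β).bijective
  · exact (Module.End.isUnit_iff _).2 β.bijective
  · ext x
    rw [← hβ x]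
    simp

end field

theorem key {U W : Type} [AddCommGroup U] [AddCommGroup W] [Module (ZMod 2) U] [Module (ZMod 2) W]
    [Finite U] [Finite W] (h : Nat.card W * Nat.card U ≠ 2) :
    ∃ (φ : U →ₗ[ZMod 2] U) (ψ : U →ₗ[ZMod 2] W), Function.Injective φ ∧ ∀ u, ψ u = 0 → φ u = u → u = 0 := by
  have hcU : Nat.card U = 2 ^ Module.finrank (ZMod 2) U := by
    rw [Module.natCard_eq_pow_finrank (K := ZMod 2), Nat.card_zmod]
  rcases Nat.lt_or_ge (Module.finrank (ZMod 2) U) 1 with h0 | h1
  · have h0' : Module.finrank (ZMod 2) U = 0 := by omega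
    rw [h0', pow_zero] at hcU
    have hs : Subsingleton U := (Nat.card_eq_one_iff_unique.1 hcU).1
    exact ⟨LinearMap.id, 0, fun _ _ h => h, fun u _ _ => Subsingleton.elim _ _⟩
  rcases Nat.lt_or_ge (Module.finrank (ZMod 2) U) 2 with h2 | h2
  · have h1' : Module.finrank (ZMod 2) U = 1 := by omega
    have hW : Nontrivial W := by
      by_contra hW
      rw [not_nontrivial_iff_subsingleton] at hW
      have : Nat.card W = 1 := Nat.card_unique
      rw [hcU, h1', this] at h
      exact h rfl
    obtain ⟨w, hw⟩ := exists_ne (0 : W)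
    have e : U ≃ₗ[ZMod 2] ZMod 2 := LinearEquiv.ofFinrankEq _ _ (by rw [h1', Module.finrank_self])
    refine ⟨LinearMap.id, (LinearMap.toSpanSingleton (ZMod 2) W w).comp e.toLinearMap, fun _ _ h => h,
      fun u hu _ => ?_⟩
    have h3 : e u • w = 0 := hu
    rcases smul_eq_zero.1 h3 with h4 | h4
    · exact e.map_eq_zero_iff.1 h4
    · exact absurd h4 hw
  · have hd : Module.finrank (ZMod 2) U ≠ 0 := by omega
    have e : U ≃ₗ[ZMod 2] GaloisField 2 (Module.finrank (ZMod 2) U) :=
      LinearEquiv.ofFinrankEq _ _ (by rw [GaloisField.finrank 2 hd])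
    obtain ⟨a, ha0, ha1⟩ : ∃ a : GaloisField 2 (Module.finrank (ZMod 2) U), a ≠ 0 ∧ a ≠ 1 := by
      classical
      by_contra hcon
      push Not at hcon
      have h5 : Nat.card (GaloisField 2 (Module.finrank (ZMod 2) U)) ≤ 2 := by
        have : Fintype (GaloisField 2 (Module.finrank (ZMod 2) U)) := Fintype.ofFinite _
        rw [Nat.card_eq_fintype_card, ← Finset.card_univ]
        refine (Finset.card_le_card (t := {0, 1}) fun x _ => ?_).trans Finset.card_le_two
        by_cases hx : x = 0
        · simp [hx]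
        · simp [hcon x hx]
      rw [GaloisField.card 2 _ hd] at h5
      have : 2 ^ 2 ≤ 2 ^ Module.finrank (ZMod 2) U := Nat.pow_le_pow_right (by norm_num) h2
      omega
    refine ⟨e.symm.toLinearMap.comp ((LinearMap.mulLeft (ZMod 2) a).comp e.toLinearMap), 0, ?_, ?_⟩
    · intro x y hxy
      have h6 : a * e x = a * e y := e.symm.injective hxy
      exact e.injective (mul_left_cancel₀ ha0 h6)
    · intro u _ hu
      have h6 : e.symm (a * e u) = u := hu
      have h7 : a * e u = e u := e.symm_apply_eq.1 h6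
      have h8 : (a - 1) * e u = 0 := by rw [sub_mul, one_mul, h7, sub_self]
      rcases mul_eq_zero.1 h8 with h9 | h9
      · exact absurd (sub_eq_zero.1 h9) ha1
      · exact e.map_eq_zero_iff.1 h9


theorem fix_of_key {K : Type*} [Field K] {V : Type*} [AddCommGroup V] [Module K V] [FiniteDimensional K V]
    (W U : Submodule K V) (hU : IsCompl W U) (φ : U →ₗ[K] U) (ψ : U →ₗ[K] W) (hφ : Function.Injective φ)
    (hk : ∀ u, ψ u = 0 → φ u = u → u = 0) : ∃ α : V ≃ₗ[K] V, ∀ x, x ∈ W ↔ α x = x := by
  let P := Submodule.prodEquivOfIsCompl W U hU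
  have hP : ∀ (w : W) (u : U), P (w, u) = (w : V) + u := fun w u => Submodule.coe_prodEquivOfIsCompl' W U hU _
  let a : V →ₗ[K] V := P.toLinearMap ∘ₗ
    (LinearMap.prod (LinearMap.fst K W U + ψ ∘ₗ LinearMap.snd K W U) (φ ∘ₗ LinearMap.snd K W U)) ∘ₗ
      P.symm.toLinearMap
  have ha : ∀ x, a x = P ((P.symm x).1 + ψ (P.symm x).2, φ (P.symm x).2) := fun _ => rfl
  have hinj : Function.Injective a := by
    rw [injective_iff_map_eq_zero]
    intro x hx
    rw [ha, P.map_eq_zero_iff, Prod.mk_eq_zero] at hx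
    have h3 : (P.symm x).2 = 0 := hφ (by rw [hx.2, map_zero])
    have h4 : (P.symm x).1 = 0 := by
      have := hx.1
      rwa [h3, map_zero, add_zero] at this
    have h5 : P.symm x = 0 := Prod.ext h4 h3
    exact P.symm.map_eq_zero_iff.1 h5
  refine ⟨LinearEquiv.ofInjectiveEndo a hinj, fun g => ?_⟩
  show g ∈ W ↔ a g = g
  obtain ⟨⟨w, u⟩, rfl⟩ := P.surjective g
  rw [ha, P.symm_apply_apply]
  have h6 : P (w, u) ∈ W ↔ u = 0 := by
    rw [hP, Submodule.add_mem_iff_right _ w.2]
    constructor
    · intro hu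
      have := hU.disjoint.le_bot ⟨hu, u.2⟩
      exact Subtype.ext this
    · rintro rfl
      exact W.zero_mem
  rw [h6]
  constructor
  · rintro rfl
    simp
  · intro h7
    have h8 := P.injective h7
    rw [Prod.mk.injEq] at h8
    exact hk u (by simpa using h8.1) h8.2

theorem fixAll_elt {K : Type*} [Field K] {V : Type*} [AddCommGroup V] [Module K V] [FiniteDimensional K V]
    {a : K} (h0 : a ≠ 0) (h1 : a ≠ 1) : FixAll K V := by
  intro W
  obtain ⟨U, hU⟩ := Submodule.exists_isCompl W
  refine fix_of_key W U hU (a • LinearMap.id) 0 ?_ ?_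
  · intro x y hxy
    exact smul_right_injective U h0 hxy
  · intro u _ hu
    have h2 : a • u = u := hu
    have h3 : (a - 1) • u = 0 := by rw [sub_smul, one_smul, h2, sub_self]
    rcases smul_eq_zero.1 h3 with h4 | h4
    · exact absurd (sub_eq_zero.1 h4) h1
    · exact h4

theorem fixAll_two {n : ℕ} (hn : n ≠ 1) : FixAll (ZMod 2) (Fin n → ZMod 2) := by
  intro W
  obtain ⟨U, hU⟩ := Submodule.exists_isCompl W
  have hcard : Nat.card W * Nat.card U ≠ 2 := by
    rw [← Nat.card_prod, Nat.card_congr (Submodule.prodEquivOfIsCompl W U hU).toEquiv, Nat.card_fun,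
      Nat.card_zmod, Nat.card_fin]
    intro h
    rcases Nat.lt_or_ge n 1 with h1 | h1
    · have : n = 0 := by omega
      subst this
      simp at h
    · have : 2 ^ 2 ≤ 2 ^ n := Nat.pow_le_pow_right (by norm_num) (by omega)
      omega
  obtain ⟨φ, ψ, hφ, hk⟩ := key (U := U) (W := W) hcard
  exact fix_of_key W U hU φ ψ hφ hk

theorem two_matrix_field {K : Type*} [Field K] {n : ℕ} (h : FixAll K (Fin n → K))
    (M : Matrix (Fin n) (Fin n) K) : Two M := by
  have := (two_of_fix h (Matrix.toLinAlgEquiv' M)).map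
    ((Matrix.toLinAlgEquiv' (R := K) (n := Fin n)).symm : _ →+* Matrix (Fin n) (Fin n) K)
  have e : ((Matrix.toLinAlgEquiv' (R := K) (n := Fin n)).symm : _ →+* Matrix (Fin n) (Fin n) K)
      (Matrix.toLinAlgEquiv' M) = M := (Matrix.toLinAlgEquiv' (R := K) (n := Fin n)).symm_apply_apply M
  rwa [e] at this

theorem two_matrix_field' {K : Type*} [Field K] [Finite K] {n : ℕ} (h : n ≠ 1 ∨ ∃ a : K, a ≠ 0 ∧ a ≠ 1)
    (M : Matrix (Fin n) (Fin n) K) : Two M := by
  by_cases hK : ∃ a : K, a ≠ 0 ∧ a ≠ 1
  · obtain ⟨a, h0, h1⟩ := hK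
    exact two_matrix_field (fixAll_elt h0 h1) M
  · have hn : n ≠ 1 := h.resolve_right hK
    push Not at hK
    classical
    have : Fintype K := Fintype.ofFinite K
    have hc : Fintype.card K = 2 := by
      rw [← Finset.card_univ]
      have : (Finset.univ : Finset K) = {0, 1} := by
        ext x
        by_cases hx : x = 0
        · simp [hx]
        · simp [hK x hx]
      rw [this, Finset.card_pair zero_ne_one]
    let e : ZMod 2 ≃+* K := ZMod.ringEquivOfPrime K Nat.prime_two hc
    have := (two_matrix_field (fixAll_two hn) (M.map e.symm)).map (e.toRingHom.mapMatrix (m := Fin n))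
    have e2 : (e.toRingHom.mapMatrix (m := Fin n)) (M.map e.symm) = M := by
      ext i j
      simp
    rwa [e2] at this

theorem two_matrix {D : Type*} [DivisionRing D] [Finite D] {n : ℕ} (h : n ≠ 1 ∨ ∃ a : D, a ≠ 0 ∧ a ≠ 1)
    (M : Matrix (Fin n) (Fin n) D) : Two M :=
  two_matrix_field' (K := D) h M

theorem excl {D : Type*} [DivisionRing D] {n : ℕ} (h : Two (1 : Matrix (Fin n) (Fin n) D)) :
    n ≠ 1 ∨ ∃ a : D, a ≠ 0 ∧ a ≠ 1 := by
  by_contra hcon
  push Not at hcon
  obtain ⟨hn, hall⟩ := hcon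
  subst hn
  obtain ⟨u, v, hu, hv, huv⟩ := h
  have key : ∀ w : Matrix (Fin 1) (Fin 1) D, IsUnit w → w 0 0 = 1 := by
    intro w hw
    apply hall
    intro h0
    apply hw.ne_zero
    ext i j
    rw [Subsingleton.elim i 0, Subsingleton.elim j 0, h0]
    rfl
  have := congrFun (congrFun huv 0) 0
  rw [Matrix.sub_apply, key u hu, key v hv, sub_self, Matrix.one_apply_eq] at this
  exact one_ne_zero this

/-- in a finite ring in which `1` is a difference of two units every element is a difference of two units -/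
theorem two_all {R : Type} [Ring R] [Finite R] (h1 : Two (1 : R)) (x : R) : Two x := by
  apply two_lift
  obtain ⟨n, D, d, hD, hAlg, hd, ⟨e⟩⟩ :=
    IsSemisimpleRing.exists_algEquiv_pi_matrix_divisionRing ℤ (R ⧸ Ring.jacobson R)
  have hfin0 : Finite (R ⧸ Ring.jacobson R) := Finite.of_surjective _ (Ideal.Quotient.mk_surjective (I := Ring.jacobson R))
  have hfin : Finite (∀ i, Matrix (Fin (d i)) (Fin (d i)) (D i)) := Finite.of_equiv _ e.toEquiv
  have hfinD : ∀ i, Finite (D i) := by
    intro i
    have : Finite (Matrix (Fin (d i)) (Fin (d i)) (D i)) :=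
      Finite.of_surjective (fun f : (∀ i, Matrix (Fin (d i)) (Fin (d i)) (D i)) => f i)
        (Function.surjective_eval i)
    have := hd i
    exact Finite.of_surjective (fun M : Matrix (Fin (d i)) (Fin (d i)) (D i) => M 0 0)
      (fun a => ⟨fun _ _ => a, rfl⟩)
  have key : Two (e (Ideal.Quotient.mk (Ring.jacobson R) x)) := by
    apply two_pi
    intro i
    have := hfinD i
    apply two_matrix
    have h2 := ((h1.map (Ideal.Quotient.mk (Ring.jacobson R))).map e.toRingEquiv.toRingHom).map
      (Pi.evalRingHom (fun i => Matrix (Fin (d i)) (Fin (d i)) (D i)) i)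
    rw [map_one, map_one, map_one] at h2
    exact excl h2
  have h3 := key.map e.symm.toRingEquiv.toRingHom
  have h4 : e.symm.toRingEquiv.toRingHom (e (Ideal.Quotient.mk (Ring.jacobson R) x)) =
      Ideal.Quotient.mk (Ring.jacobson R) x := e.symm_apply_apply _
  rwa [h4] at h3

/-- In a finite abelian group every subgroup is the kernel of an endomorphism. -/
theorem exists_ker {G : Type} [CommGroup G] [Finite G] (H : Subgroup G) :
    ∃ A : G →* G, ∀ g, g ∈ H ↔ A g = 1 := by
  have : NeZero (Monoid.exponent G) := ⟨Monoid.exponent_ne_zero_of_finite⟩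
  have : NeZero (Monoid.exponent (G ⧸ H)) := ⟨Monoid.exponent_ne_zero_of_finite⟩
  obtain ⟨e1⟩ := CommGroup.monoidHom_mulEquiv_of_hasEnoughRootsOfUnity G ℂ
  obtain ⟨e2⟩ := CommGroup.monoidHom_mulEquiv_of_hasEnoughRootsOfUnity (G ⧸ H) ℂ
  let c : ((G ⧸ H) →* ℂˣ) →* (G →* ℂˣ) :=
    { toFun := fun φ => φ.comp (QuotientGroup.mk' H)
      map_one' := rfl
      map_mul' := fun _ _ => rfl }
  have hc : Function.Injective c := by
    intro φ ψ h
    ext x
    exact congrArg Units.val (DFunLike.congr_fun h x)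
  refine ⟨e1.toMonoidHom.comp (c.comp (e2.symm.toMonoidHom.comp (QuotientGroup.mk' H))), fun g => ?_⟩
  show g ∈ H ↔ e1 (c (e2.symm (QuotientGroup.mk' H g))) = 1
  rw [e1.map_eq_one_iff, map_eq_one_iff c hc, e2.symm.map_eq_one_iff, QuotientGroup.mk'_apply,
    QuotientGroup.eq_one_iff]


theorem isUnit_of_inj {G : Type} [AddCommGroup G] [Finite G] (f : AddMonoid.End G)
    (h : ∀ x, f x = 0 → x = 0) : IsUnit f := by
  have hinj : Function.Injective f := (injective_iff_map_eq_zero f).2 h
  have hbij : Function.Bijective f := Finite.injective_iff_bijective.mp hinj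
  let e : G ≃+ G := AddEquiv.ofBijective f hbij
  rw [isUnit_iff_exists]
  refine ⟨(e.symm : G →+ G), ?_, ?_⟩
  · ext x
    exact e.apply_symm_apply x
  · ext x
    exact e.symm_apply_apply x

theorem additive_case {G : Type} [AddCommGroup G] [Finite G] (σ : G ≃+ G) (hσ : ∀ x, σ x = x → x = 0)
    (A : AddMonoid.End G) : ∃ α : G ≃+ G, ∀ g, A g = 0 ↔ α g = g := by
  have : Finite (AddMonoid.End G) := Finite.of_injective (fun f : AddMonoid.End G => (f : G → G))
    DFunLike.coe_injective
  let s : AddMonoid.End G := (σ : G →+ G)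
  have h1 : Two (1 : AddMonoid.End G) := by
    refine ⟨s, s - 1, isUnit_of_inj s fun x hx => ?_, isUnit_of_inj (s - 1) fun x hx => ?_, by abel⟩
    · exact σ.map_eq_zero_iff.1 hx
    · exact hσ x (sub_eq_zero.1 hx)
  obtain ⟨u, v, hu, hv, huv⟩ := two_all h1 A
  obtain ⟨w, hw1, hw2⟩ := isUnit_iff_exists.1 hv
  obtain ⟨z, hz1, hz2⟩ := isUnit_iff_exists.1 hu
  have e1 : ∀ x, v (w x) = x := fun x => DFunLike.congr_fun hw1 x
  have e2 : ∀ x, w (v x) = x := fun x => DFunLike.congr_fun hw2 x
  have e3 : ∀ x, u (z x) = x := fun x => DFunLike.congr_fun hz1 x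
  have e4 : ∀ x, z (u x) = x := fun x => DFunLike.congr_fun hz2 x
  refine ⟨{ toFun := fun x => w (u x), invFun := fun x => z (v x), left_inv := fun x => by show z (v (w (u x))) = x; rw [e1, e4],
            right_inv := fun x => by show w (u (z (v x))) = x; rw [e3, e2], map_add' := fun x y => by rw [map_add, map_add] }, fun g => ?_⟩
  show A g = 0 ↔ w (u g) = g
  have h3 : A g = u g - v g := by rw [huv]; rfl
  rw [h3, sub_eq_zero]
  constructor
  · intro h
    rw [h, e2]
  · intro h
    rw [← e1 (u g), h]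

/-- the direct product of `n v` copies of the cyclic group of order `v`, for all `v ∈ S` -/
abbrev Grp (S : Finset ℕ) (n : ℕ → ℕ) : Type := (v : S) → Fin (n v) → ZMod v

theorem fpf_odd {v m : ℕ} (hv : v.Coprime 2) :
    ∃ σ : (Fin m → ZMod v) ≃+ (Fin m → ZMod v), ∀ x, σ x = x → x = 0 := by
  refine ⟨AddEquiv.neg _, fun x hx => ?_⟩
  have h1 : -x = x := hx
  funext i
  have h2 : -(x i) = x i := congrFun h1 i
  have h3 : ((2 : ℕ) : ZMod v) * x i = 0 := by
    push_cast
    linear_combination -h2
  have h4 : IsUnit ((2 : ℕ) : ZMod v) := (ZMod.isUnit_iff_coprime 2 v).2 hv.symm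
  exact h4.mul_right_eq_zero.1 h3

theorem fpf_pow {v m : ℕ} [NeZero v] (hv : v.Coprime 3) (hm : m ≠ 1) :
    ∃ σ : (Fin m → ZMod v) ≃+ (Fin m → ZMod v), ∀ x, σ x = x → x = 0 := by
  rcases m with _ | _ | n
  · exact ⟨AddEquiv.refl _, fun x _ => Subsingleton.elim _ _⟩
  · exact absurd rfl hm
  · let A : (Fin (n + 2) → ZMod v) →+ (Fin (n + 2) → ZMod v) :=
      { toFun := fun x => Fin.cons (-x (Fin.last _)) fun j : Fin (n + 1) => x j.castSucc - if j = 0 then x (Fin.last _) else 0
        map_zero' := by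
          funext i
          refine Fin.cases ?_ (fun j => ?_) i
          · simp
          · simp
        map_add' := fun x y => by
          funext i
          refine Fin.cases ?_ (fun j => ?_) i
          · simp; ring
          · simp only [Fin.cons_succ, Pi.add_apply]
            split_ifs <;> ring }
    have hA0 : ∀ x, A x 0 = -x (Fin.last _) := fun x => rfl
    have hAs : ∀ x (j : Fin (n + 1)), A x j.succ = x j.castSucc - if j = 0 then x (Fin.last _) else 0 := fun x j => rfl
    have hinj : Function.Injective A := by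
      rw [injective_iff_map_eq_zero]
      intro x hx
      have h1 : x (Fin.last _) = 0 := by
        have := congrFun hx 0
        rw [hA0] at this
        simpa using this
      funext i
      refine Fin.lastCases ?_ (fun j => ?_) i
      · exact h1
      · have := congrFun hx j.succ
        rw [hAs, h1] at this
        simpa using this
    refine ⟨AddEquiv.ofBijective A (Finite.injective_iff_bijective.mp hinj), fun x hx => ?_⟩
    have hx' : A x = x := hx
    have h0 : -x (Fin.last _) = x 0 := by rw [← hA0, hx']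
    have hs : ∀ j : Fin (n + 1), x j.castSucc - (if j = 0 then x (Fin.last _) else 0) = x j.succ := fun j => by
      rw [← hAs, hx']
    have key : ∀ (j : ℕ) (hj : j + 1 < n + 2), x ⟨j + 1, hj⟩ = 2 * x 0 := by
      intro j
      induction j with
      | zero =>
        intro hj
        have := hs 0
        rw [if_pos rfl] at this
        have e1 : (0 : Fin (n + 1)).castSucc = (0 : Fin (n + 2)) := rfl
        have e2 : (0 : Fin (n + 1)).succ = (⟨0 + 1, hj⟩ : Fin (n + 2)) := rfl
        rw [e1, e2] at this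
        rw [← this]
        linear_combination h0
      | succ j ih =>
        intro hj
        have := hs ⟨j + 1, by omega⟩
        have hne : (⟨j + 1, by omega⟩ : Fin (n + 1)) ≠ 0 := by
          intro h
          have := congrArg Fin.val h
          simp at this
        rw [if_neg hne, sub_zero] at this
        have e1 : (⟨j + 1, by omega⟩ : Fin (n + 1)).castSucc = (⟨j + 1, by omega⟩ : Fin (n + 2)) := rfl
        have e2 : (⟨j + 1, by omega⟩ : Fin (n + 1)).succ = (⟨j + 1 + 1, hj⟩ : Fin (n + 2)) := rfl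
        rw [e1, e2] at this
        rw [← this]
        exact ih _
    have hlast : x (Fin.last _) = 2 * x 0 := key n (by omega)
    have h3 : ((3 : ℕ) : ZMod v) * x 0 = 0 := by
      push_cast
      linear_combination -h0 - hlast
    have h4 : IsUnit ((3 : ℕ) : ZMod v) := (ZMod.isUnit_iff_coprime 3 v).2 hv.symm
    have h5 : x 0 = 0 := h4.mul_right_eq_zero.1 h3
    funext i
    refine Fin.cases ?_ (fun j => ?_) i
    · exact h5
    · have := key j (by omega)
      rw [h5, mul_zero] at this
      exact this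

theorem fpf_grp {S : Finset ℕ} {n : ℕ → ℕ} (hS : ∀ v ∈ S, IsPrimePow v)
    (h : ∀ k, 2 ^ (k + 1) ∈ S → n (2 ^ (k + 1)) ≠ 1) :
    ∃ σ : Grp S n ≃+ Grp S n, ∀ x, σ x = x → x = 0 := by
  have key : ∀ v : S, ∃ σ : (Fin (n v) → ZMod v) ≃+ (Fin (n v) → ZMod v), ∀ x, σ x = x → x = 0 := by
    rintro ⟨v, hv⟩
    obtain ⟨p, k, hp, hk, rfl⟩ := (isPrimePow_nat_iff v).1 (hS v hv)
    by_cases h2 : p = 2
    · subst h2
      have : NeZero (2 ^ k) := ⟨by positivity⟩
      obtain ⟨k', rfl⟩ : ∃ k', k = k' + 1 := ⟨k - 1, by omega⟩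
      exact fpf_pow (Nat.Coprime.pow_left _ (by norm_num)) (h k' hv)
    · exact fpf_odd (Nat.Coprime.pow_left _ ((Nat.coprime_primes hp Nat.prime_two).2 h2))
  choose σ hσ using key
  refine ⟨AddEquiv.piCongrRight σ, fun x hx => ?_⟩
  funext v
  exact hσ v (x v) (congrFun hx v)

section nofpf

variable {S : Finset ℕ} {n : ℕ → ℕ}

/-- the elements of order at most two which are `2 ^ k` times another element -/
def Lay (S : Finset ℕ) (n : ℕ → ℕ) (k : ℕ) : AddSubgroup (Grp S n) where
  carrier := {x | x + x = 0 ∧ ∃ y : Grp S n, x = (2 ^ k) • y}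
  zero_mem' := ⟨by simp, 0, by simp⟩
  add_mem' := by
    rintro a b ⟨h1, y, h2⟩ ⟨h3, z, h4⟩
    refine ⟨?_, y + z, by rw [h2, h4, smul_add]⟩
    have : a + b + (a + b) = (a + a) + (b + b) := by abel
    rw [this, h1, h3, add_zero]
  neg_mem' := by
    rintro a ⟨h1, y, h2⟩
    refine ⟨?_, -y, by rw [h2, smul_neg]⟩
    have : -a + -a = -(a + a) := by abel
    rw [this, h1, neg_zero]

theorem comp_ne {k p l : ℕ} (hp : p.Prime) (hne : p ^ l ≠ 2 ^ (k + 1)) (y : ZMod (p ^ l))
    (h : 2 ^ k * y + 2 ^ k * y = 0) : ∃ z : ZMod (p ^ l), 2 ^ k * y = 2 ^ (k + 1) * z := by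
  by_cases h2 : p = 2
  · subst h2
    rcases Nat.lt_or_ge k l with hkl | hkl
    · have hl2 : k + 2 ≤ l := by
        rcases Nat.lt_or_ge (k + 1) l with h3 | h3
        · exact h3
        · exact absurd (by rw [show l = k + 1 by omega]) hne
      have : NeZero (2 ^ l) := ⟨by positivity⟩
      have h4 : ((2 ^ (k + 1) * y.val : ℕ) : ZMod (2 ^ l)) = 0 := by
        push_cast
        rw [ZMod.natCast_zmod_val]
        rw [← h]; ring
      rw [ZMod.natCast_eq_zero_iff] at h4
      have h5 : 2 ^ (k + 1) * 2 ∣ 2 ^ (k + 1) * y.val := by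
        refine dvd_trans ?_ h4
        rw [← pow_succ]
        exact pow_dvd_pow 2 hl2
      have h6 : 2 ∣ y.val := Nat.dvd_of_mul_dvd_mul_left (by positivity) h5
      obtain ⟨w, hw⟩ := h6
      refine ⟨(w : ZMod (2 ^ l)), ?_⟩
      have h7 : y = 2 * (w : ZMod (2 ^ l)) := by
        rw [← ZMod.natCast_zmod_val y, hw]; push_cast; ring
      rw [h7]; ring
    · refine ⟨0, ?_⟩
      have h4 : ((2 ^ k : ℕ) : ZMod (2 ^ l)) = 0 := (ZMod.natCast_eq_zero_iff _ _).2 (pow_dvd_pow 2 hkl)
      push_cast at h4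
      rw [h4]; simp
  · refine ⟨0, ?_⟩
    have hc : (2 ^ (k + 1)).Coprime (p ^ l) :=
      Nat.Coprime.pow _ _ ((Nat.coprime_primes Nat.prime_two hp).2 (Ne.symm h2))
    have h4 : IsUnit ((2 ^ (k + 1) : ℕ) : ZMod (p ^ l)) := (ZMod.isUnit_iff_coprime _ _).2 hc
    have h5 : ((2 ^ (k + 1) : ℕ) : ZMod (p ^ l)) * y = 0 := by
      push_cast
      rw [← h]; ring
    rw [h4.mul_right_eq_zero.1 h5]
    simp

theorem comp_eq {k : ℕ} (y : ZMod (2 ^ (k + 1))) : 2 ^ k * y = 0 ∨ 2 ^ k * y = 2 ^ k := by
  have : NeZero (2 ^ (k + 1)) := ⟨by positivity⟩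
  have h0 : ((2 ^ (k + 1) : ℕ) : ZMod (2 ^ (k + 1))) = 0 := by simp
  push_cast at h0
  rcases Nat.even_or_odd' y.val with ⟨w, hw | hw⟩
  · left
    have h7 : y = 2 * (w : ZMod (2 ^ (k + 1))) := by
      rw [← ZMod.natCast_zmod_val y, hw]; push_cast; ring
    rw [h7]
    linear_combination (w : ZMod (2 ^ (k + 1))) * h0
  · right
    have h7 : y = 2 * (w : ZMod (2 ^ (k + 1))) + 1 := by
      rw [← ZMod.natCast_zmod_val y, hw]; push_cast; ring
    rw [h7]
    linear_combination (w : ZMod (2 ^ (k + 1))) * h0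

theorem no_fpf (hS : ∀ v ∈ S, IsPrimePow v) {k : ℕ} (hk : 2 ^ (k + 1) ∈ S) (hn : n (2 ^ (k + 1)) = 1)
    (σ : Grp S n ≃+ Grp S n) (hσ : ∀ x, σ x = x → x = 0) : False := by
  classical
  have hne : ∀ v : S, NeZero (v : ℕ) := fun v => ⟨(hS v v.2).pos.ne'⟩
  have hfin : Finite (Grp S n) := inferInstance
  let v0 : S := ⟨2 ^ (k + 1), hk⟩
  let i0 : Fin (n v0) := ⟨0, by show 0 < n (2 ^ (k + 1)); omega⟩
  have hi0 : ∀ i : Fin (n v0), i = i0 := fun i => by
    ext
    have h1 := i.2
    have h2 : n v0 = 1 := hn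
    show (i : ℕ) = 0
    omega
  let x0 : Grp S n := fun v _ => if v = v0 then ((2 ^ k : ℕ) : ZMod v) else 0
  have hx0 : x0 v0 i0 = ((2 ^ k : ℕ) : ZMod (2 ^ (k + 1))) := if_pos rfl
  have hx0' : ∀ v i, v ≠ v0 → x0 v i = 0 := fun v i hv => if_neg hv
  -- the element `x0` is in the layer `k`, not in the layer `k + 1`
  have hD0 : x0 ∈ Lay S n k := by
    refine ⟨?_, fun v _ => if v = v0 then 1 else 0, ?_⟩
    · funext v i
      show x0 v i + x0 v i = 0
      by_cases hv : v = v0
      · subst hv
        rw [hi0 i, hx0]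
        have h0 : ((2 ^ (k + 1) : ℕ) : ZMod (2 ^ (k + 1))) = 0 := by simp
        push_cast at h0 ⊢
        rw [← h0]; ring
      · rw [hx0' v i hv, add_zero]
    · funext v i
      show x0 v i = (2 ^ k) • (if v = v0 then (1 : ZMod v) else 0)
      by_cases hv : v = v0
      · rw [if_pos hv]
        show (if v = v0 then ((2 ^ k : ℕ) : ZMod v) else 0) = _
        rw [if_pos hv]
        simp
      · rw [hx0' v i hv, if_neg hv, smul_zero]
  have hE0 : x0 ∉ Lay S n (k + 1) := by
    rintro ⟨-, y, hy⟩
    have h1 : x0 v0 i0 = (2 ^ (k + 1)) • y v0 i0 := congrFun (congrFun hy v0) i0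
    rw [hx0, nsmul_eq_mul] at h1
    have h0 : ((2 ^ (k + 1) : ℕ) : ZMod (2 ^ (k + 1))) = 0 := by simp
    have h2 : ((2 ^ k : ℕ) : ZMod (2 ^ (k + 1))) = 0 := by
      rw [h1]
      exact (congrArg (· * y v0 i0) h0).trans (zero_mul _)
    rw [ZMod.natCast_eq_zero_iff] at h2
    have := Nat.le_of_dvd (by positivity) h2
    rw [pow_succ] at this
    have : 0 < 2 ^ k := by positivity
    omega
  have hsplit : ∀ x ∈ Lay S n k, x ∈ Lay S n (k + 1) ∨ x - x0 ∈ Lay S n (k + 1) := by
    rintro x ⟨h1, y, h2⟩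
    have hc : ∀ (v : S) (i : Fin (n v)), x v i = 2 ^ k * y v i := fun v i => by
      rw [h2]
      show (2 ^ k) • y v i = _
      rw [nsmul_eq_mul]
      push_cast
      ring
    have h3 : ∀ (v : S) (i : Fin (n v)), v ≠ v0 → ∃ z : ZMod v, x v i = 2 ^ (k + 1) * z := by
      rintro ⟨v, hv⟩ i hvne
      obtain ⟨p, l, hp, hl, rfl⟩ := (isPrimePow_nat_iff v).1 (hS v hv)
      rw [hc]
      refine comp_ne hp (fun h => hvne (Subtype.ext h)) _ ?_
      have : x ⟨p ^ l, hv⟩ i + x ⟨p ^ l, hv⟩ i = 0 := congrFun (congrFun h1 _) i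
      rwa [hc] at this
    have h4 : x v0 i0 = 0 ∨ x v0 i0 = ((2 ^ k : ℕ) : ZMod (2 ^ (k + 1))) := by
      rw [hc]
      push_cast
      exact comp_eq (k := k) (y v0 i0)
    rcases h4 with h4 | h4
    · left
      have h5 : ∀ (v : S) (i : Fin (n v)), ∃ z : ZMod v, x v i = 2 ^ (k + 1) * z := by
        intro v i
        by_cases hv : v = v0
        · subst hv
          exact ⟨0, by rw [hi0 i, h4, mul_zero]⟩
        · exact h3 v i hv
      choose z hz using h5
      refine ⟨h1, z, ?_⟩
      funext v i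
      rw [hz]
      show _ = (2 ^ (k + 1)) • z v i
      rw [nsmul_eq_mul]
      push_cast
      ring
    · right
      have h5 : ∀ (v : S) (i : Fin (n v)), ∃ z : ZMod v, (x - x0) v i = 2 ^ (k + 1) * z := by
        intro v i
        show ∃ z : ZMod v, x v i - x0 v i = _
        by_cases hv : v = v0
        · subst hv
          exact ⟨0, by rw [hi0 i, h4, hx0, mul_zero, sub_self]⟩
        · rw [hx0' v i hv, sub_zero]
          exact h3 v i hv
      choose z hz using h5
      refine ⟨?_, z, ?_⟩
      · have : x - x0 + (x - x0) = (x + x) - (x0 + x0) := by abel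
        rw [this, h1, hD0.1, sub_zero]
      · funext v i
        rw [hz]
        show _ = (2 ^ (k + 1)) • z v i
        rw [nsmul_eq_mul]
        push_cast
        ring
  -- the automorphism preserves the layers
  have hpres : ∀ j x, x ∈ Lay S n j → σ x ∈ Lay S n j := by
    rintro j x ⟨h1, y, h2⟩
    exact ⟨by rw [← map_add, h1, map_zero], σ y, by rw [h2, map_nsmul]⟩
  let f : Lay S n (k + 1) → Lay S n (k + 1) := fun x => ⟨σ x, hpres _ _ x.2⟩
  have hf : Function.Surjective f := Finite.surjective_of_injective fun x y h =>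
    Subtype.ext (σ.injective (congrArg Subtype.val h))
  let g : Lay S n (k + 1) → Lay S n (k + 1) := fun x => ⟨σ x - x, (Lay S n (k + 1)).sub_mem (hpres _ _ x.2) x.2⟩
  have hg : Function.Surjective g := Finite.surjective_of_injective fun x y h => by
    have h1 : σ (x : Grp S n) - x = σ (y : Grp S n) - y := congrArg Subtype.val h
    apply Subtype.ext
    apply sub_eq_zero.1
    apply hσ
    rw [map_sub]
    have : σ (x : Grp S n) - σ y = (σ (x : Grp S n) - x) - (σ (y : Grp S n) - y) + (x - y) := by abel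
    rw [this, h1, sub_self, zero_add]
  rcases hsplit _ (hpres k x0 hD0) with h | h
  · obtain ⟨e, he⟩ := hf ⟨_, h⟩
    have h1 : σ (e : Grp S n) = σ x0 := congrArg Subtype.val he
    exact hE0 (by rw [← σ.injective h1]; exact e.2)
  · obtain ⟨e, he⟩ := hg ⟨_, h⟩
    have h1 : σ (e : Grp S n) - e = σ x0 - x0 := congrArg Subtype.val he
    have h2 : x0 - e = 0 := by
      apply hσ
      rw [map_sub]
      have : σ x0 - σ (e : Grp S n) = (σ x0 - x0) - (σ (e : Grp S n) - e) + (x0 - e) := by abel
      rw [this, h1, sub_self, zero_add]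
    exact hE0 (by rw [sub_eq_zero.1 h2]; exact e.2)

end nofpf


/-- a finite abelian group has (F) if and only if it has an automorphism without nontrivial fixed points -/
theorem main (G : Type) [CommGroup G] [Finite G] :
    PropertyF G ↔ ∃ σ : MulAut G, ∀ g : G, σ g = g → g = 1 := by
  constructor
  · intro h
    obtain ⟨σ, hσ⟩ := h ⊥
    exact ⟨σ, fun g hg => Subgroup.mem_bot.1 ((hσ g).2 hg)⟩
  · rintro ⟨σ, hσ⟩ H
    obtain ⟨A, hA⟩ := exists_ker H
    obtain ⟨α, hα⟩ := additive_case (G := Additive G) (MulEquiv.toAdditive σ) (fun x hx => hσ x hx)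
      (MonoidHom.toAdditive A)
    refine ⟨AddEquiv.toMultiplicative α, fun g => ?_⟩
    rw [hA]
    exact hα (Additive.ofMul g)

theorem fpf_iff {S : Finset ℕ} {n : ℕ → ℕ} {G : Type} [CommGroup G] (e : G ≃* Multiplicative (Grp S n)) :
    (∃ σ : MulAut G, ∀ g : G, σ g = g → g = 1) ↔ ∃ σ : Grp S n ≃+ Grp S n, ∀ x, σ x = x → x = 0 := by
  constructor
  · rintro ⟨σ, hσ⟩
    let τ : Multiplicative (Grp S n) ≃* Multiplicative (Grp S n) := e.symm.trans (MulEquiv.trans σ e)
    have hτ : ∀ x, τ x = x → x = 1 := by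
      intro x hx
      have h1 : e (σ (e.symm x)) = x := hx
      have h2 : σ (e.symm x) = e.symm x := e.injective (by rw [h1, e.apply_symm_apply])
      have h3 := hσ _ h2
      rw [← e.apply_symm_apply x, h3, map_one]
    exact ⟨AddEquiv.toMultiplicative.symm τ, fun x hx => hτ (Multiplicative.ofAdd x) hx⟩
  · rintro ⟨σ, hσ⟩
    let τ : Multiplicative (Grp S n) ≃* Multiplicative (Grp S n) := AddEquiv.toMultiplicative σ
    refine ⟨e.trans (τ.trans e.symm), fun g hg => ?_⟩
    have h1 : e.symm (τ (e g)) = g := hg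
    have h2 : τ (e g) = e g := by rw [← e.apply_symm_apply (τ (e g)), h1]
    have h3 : Multiplicative.toAdd (e g) = 0 := hσ _ h2
    have h4 : e g = 1 := h3
    exact (MulEquiv.map_eq_one_iff e).1 h4

/-- **Theorem.** (1) A finite abelian group has the property (F) if and only if it has an automorphism without
nontrivial fixed points. (2) Let `S` be a finite set of prime powers and let `G` be the direct product of `n v` cyclic
groups of order `v` for every `v ∈ S` (every finite abelian group is of this form). Then `G` has the property (F) if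
and only if there is no `k ≥ 1` with `2 ^ k ∈ S` and `n (2 ^ k) = 1`. -/
theorem result :
    (∀ (G : Type) [CommGroup G] [Finite G],
      PropertyF G ↔ ∃ σ : MulAut G, ∀ g : G, σ g = g → g = 1) ∧
    (∀ (S : Finset ℕ) (n : ℕ → ℕ), (∀ v ∈ S, IsPrimePow v) → ∀ (G : Type) [CommGroup G],
      G ≃* Multiplicative (Grp S n) →
      (PropertyF G ↔ ∀ k : ℕ, 2 ^ (k + 1) ∈ S → n (2 ^ (k + 1)) ≠ 1)) := by
  refine ⟨fun G _ _ => main G, fun S n hS G _ e => ?_⟩
  have hne : ∀ v : S, NeZero (v : ℕ) := fun v => ⟨(hS v v.2).pos.ne'⟩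
  have hfin : Finite (Grp S n) := inferInstance
  have hfin' : Finite (Multiplicative (Grp S n)) := hfin
  have hG : Finite G := Finite.of_equiv _ e.symm.toEquiv
  rw [main G, fpf_iff e]
  constructor
  · rintro ⟨σ, hσ⟩ k hk hn
    exact no_fpf hS hk hn σ hσ
  · exact fun h => fpf_grp hS h

end Pool.Agent.Results.MP_9085a3_al.AbelianGroups
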